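import Mathlib

/-!
# MP_8a6e71_co, Q1: a non-separating signed digraph without a positive cycle
and a negative cycle that are disjoint

The Boolean network on five components (numbered `0,…,4`)

* `f₀ = (x₁ ↔ x₃)`,
* `f₁ = (x₂ ⊕ x₄)`,
* `f₂ = (x₀ ⊕ x₁) ∧ (x₀ ↔ x₄)`,
* `f₃ = (x₁ ↔ x₂)`,
* `f₄ = (x₀ ↔ x₂) ∧ (x₂ ⊕ x₃)`

has (at least) two attractors, a fixed point and an attractor with fifteen states whose
spanned subspace is the whole cube, so its asynchronous graph is non-separating.  Its signed
interaction graph has no two vertex-disjoint cycles at all; in particular no positive cycle of it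
is disjoint from a negative cycle.  This refutes the statement asked about in Q1.
-/

namespace Pool.Agent.Results.MP_8a6e71_co.NoDisjointPair

/-- Boolean configurations with `n` components. -/
abbrev Conf (n : ℕ) : Type := Fin n → Bool

/-- Boolean networks with `n` components. -/
abbrev Network (n : ℕ) : Type := Conf n → Conf n

/-- A signed digraph on `Fin n`: `arc s j i` says that there is an arc `j → i` of sign `s`
(`true` is positive, `false` is negative). -/
structure SignedDigraph (n : ℕ) where
  /-- the arcs: `arc true j i` is a positive arc, `arc false j i` a negative one. -/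
  arc : Bool → Fin n → Fin n → Prop

/-- The signed interaction graph `G(f)`: there is a positive (negative) arc `j → i` iff for some
configurations `x, y` that differ only in the component `j`, with `x_j = 0 < 1 = y_j`,
the value `f_i` increases (decreases) from `x` to `y`. -/
def interactionGraph {n : ℕ} (f : Network n) : SignedDigraph n where
  arc s j i := ∃ x y : Conf n, (∀ k, k ≠ j → x k = y k) ∧ x j = false ∧ y j = true ∧
    f x i = !s ∧ f y i = s

/-- A signed cycle of a signed digraph: `len + 1 ≥ 1` distinct vertices `v 0, …, v len`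
together with signs `s t` such that there is an arc of sign `s t` from `v t` to `v (t+1)`
(the index being taken modulo `len + 1`).  A loop is a cycle (`len = 0`). -/
structure Cycle {n : ℕ} (G : SignedDigraph n) where
  /-- one less than the number of vertices -/
  len : ℕ
  /-- the vertices -/
  v : Fin (len + 1) → Fin n
  /-- no vertex is repeated -/
  inj : Function.Injective v
  /-- the signs of the arcs used -/
  s : Fin (len + 1) → Bool
  /-- consecutive vertices are joined by arcs with the given signs -/
  isArc : ∀ t, G.arc (s t) (v t) (v (t + 1))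

/-- The sign of a cycle is the product of the signs of its arcs (`1` or `-1`). -/
def Cycle.sign {n : ℕ} {G : SignedDigraph n} (C : Cycle G) : ℤ :=
  ∏ t, if C.s t then 1 else -1

/-- The asynchronous graph `Γ(f)`: an arc `x → y` flips one component `i` with `f_i(x) ≠ x_i`. -/
def Step {n : ℕ} (f : Network n) (x y : Conf n) : Prop :=
  ∃ i, f x i ≠ x i ∧ y = Function.update x i (!x i)

/-- Trap sets: no arc of `Γ(f)` leaves `X`. -/
def IsTrap {n : ℕ} (f : Network n) (X : Set (Conf n)) : Prop :=
  ∀ x ∈ X, ∀ y, Step f x y → y ∈ X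

/-- Attractors: the inclusion-minimal nonempty trap sets. -/
def IsAttractor {n : ℕ} (f : Network n) (A : Set (Conf n)) : Prop :=
  A.Nonempty ∧ IsTrap f A ∧ ∀ B : Set (Conf n), B.Nonempty → IsTrap f B → B ⊆ A → B = A

/-- Subspaces of `{0,1}^n`. -/
def IsSubspace {n : ℕ} (S : Set (Conf n)) : Prop :=
  ∃ (I : Set (Fin n)) (c : Fin n → Bool), S = {x | ∀ i ∈ I, x i = c i}

/-- `[X]`: the smallest subspace containing `X` (the intersection of all subspaces
containing `X`). -/
def hull {n : ℕ} (X : Set (Conf n)) : Set (Conf n) :=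
  ⋂₀ {S | IsSubspace S ∧ X ⊆ S}

/-- `Γ(f)` is separating if `[A] ∩ [B] = ∅` for all distinct attractors `A, B`. -/
def Separating {n : ℕ} (f : Network n) : Prop :=
  ∀ A B : Set (Conf n), IsAttractor f A → IsAttractor f B → A ≠ B → hull A ∩ hull B = ∅

/-- A signed digraph is non-separating if it is `G(f)` for some `f` with `Γ(f)`
non-separating. -/
def NonSeparating {n : ℕ} (G : SignedDigraph n) : Prop :=
  ∃ f : Network n, interactionGraph f = G ∧ ¬ Separating f

/-- The statement asked about in Q1: every non-separating signed digraph (on `n ≥ 1` vertices)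
has a positive cycle and a negative cycle that are vertex-disjoint. -/
def Q1 : Prop :=
  ∀ (n : ℕ), 1 ≤ n → ∀ G : SignedDigraph n, NonSeparating G →
    ∃ C D : Cycle G, C.sign = 1 ∧ D.sign = -1 ∧ Disjoint (Set.range C.v) (Set.range D.v)

/-! ### The counterexample -/

/-- The network. -/
def net (x : Conf 5) : Conf 5 :=
  ![x 1 == x 3, xor (x 2) (x 4), xor (x 0) (x 1) && (x 0 == x 4), x 1 == x 2,
    (x 0 == x 2) && xor (x 2) (x 3)]

/-- The vertices of the configuration cube by number (component `i` is the `i`-th bit). -/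
def cf (k : ℕ) : Conf 5 := fun i => k.testBit i

/-- The adjacency of the interaction graph of `net` (ignoring signs). -/
def adj (j i : Fin 5) : Bool :=
  ![![false, false, true, false, true],
    ![true, false, true, true, false],
    ![false, true, false, true, true],
    ![true, false, false, false, true],
    ![false, true, true, false, false]] j i

/-- A closed walk in the asynchronous graph of `net` through fifteen states. -/
def walk (t : Fin 16) : ℕ :=
  ![0, 1, 9, 8, 24, 26, 27, 19, 18, 2, 6, 14, 15, 11, 3, 2] t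

/-- The set of the fifteen states of the closed walk. -/
def bigAttractor : Set (Conf 5) := {x | ∃ t, x = cf (walk t)}

theorem step_walk (t : Fin 16) : Step net (cf (walk t)) (cf (walk (t + 1))) := by
  have h : ∀ t : Fin 16, ∃ i, net (cf (walk t)) i ≠ cf (walk t) i ∧
      cf (walk (t + 1)) = Function.update (cf (walk t)) i (!(cf (walk t)) i) := by
    decide +kernel
  exact h t

theorem trap_walk : IsTrap net bigAttractor := by
  have h : ∀ t : Fin 16, ∀ i, net (cf (walk t)) i ≠ cf (walk t) i →
      ∃ t', Function.update (cf (walk t)) i (!(cf (walk t)) i) = cf (walk t') := by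
    decide +kernel
  rintro x ⟨t, rfl⟩ y ⟨i, hi, rfl⟩
  exact h t i hi

theorem isAttractor_big : IsAttractor net bigAttractor := by
  refine ⟨⟨cf (walk 0), 0, rfl⟩, trap_walk, ?_⟩
  rintro B ⟨b, hb⟩ hB hBA
  refine Set.Subset.antisymm hBA ?_
  have hz : ∀ t : Fin 16, t + Fin.ofNat 16 0 = t := by decide +kernel
  have hd : ∀ t₀ t : Fin 16, t = t₀ + Fin.ofNat 16 (t - t₀ : Fin 16).val := by decide +kernel
  obtain ⟨t₀, rfl⟩ := hBA hb
  have key : ∀ k : ℕ, cf (walk (t₀ + (Fin.ofNat 16 k))) ∈ B := by
    intro k
    induction k with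
    | zero =>
      rw [hz]; exact hb
    | succ k ih =>
      have h := hB _ ih _ (step_walk _)
      have e : t₀ + Fin.ofNat 16 (k + 1) = t₀ + Fin.ofNat 16 k + 1 := by
        apply Fin.ext
        simp [Fin.val_add, Fin.ofNat]
        omega
      rw [e]; exact h
  rintro x ⟨t, rfl⟩
  rw [hd t₀ t]
  exact key _

theorem isAttractor_point : IsAttractor net {cf 21} := by
  refine ⟨⟨cf 21, rfl⟩, ?_, ?_⟩
  · rintro x rfl y ⟨i, hi, rfl⟩
    exfalso
    have h : ∀ i, net (cf 21) i = cf 21 i := by decide +kernel
    exact hi (h i)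
  · rintro B ⟨b, hb⟩ _ hBA
    refine Set.Subset.antisymm hBA ?_
    have := hBA hb
    rw [Set.mem_singleton_iff] at this
    subst this
    simpa using hb

theorem hull_big (y : Conf 5) : y ∈ hull bigAttractor := by
  have h : ∀ i : Fin 5, ∀ b : Bool, ∃ t : Fin 16, cf (walk t) i = b := by decide +kernel
  rintro S ⟨⟨I, c, rfl⟩, hS⟩ i hi
  obtain ⟨t, ht⟩ := h i (y i)
  rw [← ht]
  exact hS ⟨t, rfl⟩ i hi

theorem not_separating : ¬ Separating net := by
  intro h
  have hne : bigAttractor ≠ {cf 21} := by
    intro e
    have h0 : cf (walk 0) ∈ bigAttractor := ⟨0, rfl⟩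
    rw [e, Set.mem_singleton_iff] at h0
    have h1 : cf (walk 0) ≠ cf 21 := by decide +kernel
    exact h1 h0
  have h2 := h _ _ isAttractor_big isAttractor_point hne
  have h3 : cf 21 ∈ hull bigAttractor ∩ hull {cf 21} :=
    ⟨hull_big _, fun S hS => hS.2 rfl⟩
  rw [h2] at h3
  exact h3

theorem adj_of_arc {s : Bool} {j i : Fin 5} (h : (interactionGraph net).arc s j i) :
    adj j i = true := by
  obtain ⟨x, y, hxy, hx, hy, h1, h2⟩ := h
  by_contra hadj
  have e : net x i = net y i := by
    fin_cases j <;> fin_cases i <;> first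
      | exact absurd rfl hadj
      | (simp [net]
         have a0 := hxy 0
         have a1 := hxy 1
         have a2 := hxy 2
         have a3 := hxy 3
         have a4 := hxy 4
         simp at a0 a1 a2 a3 a4
         simp [*])
  rw [h1, h2] at e
  cases s <;> simp at e

theorem no_disjoint : ∀ T₁ T₂ : Finset (Fin 5), T₁.Nonempty → T₂.Nonempty →
    (∀ v ∈ T₁, ∃ w ∈ T₁, adj v w = true) → (∀ v ∈ T₂, ∃ w ∈ T₂, adj v w = true) →
    ¬ Disjoint T₁ T₂ := by
  decide +kernel

theorem cycles_meet (C D : Cycle (interactionGraph net)) :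
    ¬ Disjoint (Set.range C.v) (Set.range D.v) := by
  intro hdis
  have key : ∀ E : Cycle (interactionGraph net), (Finset.univ.image E.v).Nonempty ∧
      ∀ v ∈ Finset.univ.image E.v, ∃ w ∈ Finset.univ.image E.v, adj v w = true := by
    intro E
    refine ⟨⟨E.v 0, Finset.mem_image_of_mem _ (Finset.mem_univ _)⟩, ?_⟩
    intro v hv
    obtain ⟨t, -, rfl⟩ := Finset.mem_image.1 hv
    exact ⟨E.v (t + 1), Finset.mem_image_of_mem _ (Finset.mem_univ _), adj_of_arc (E.isArc t)⟩
  refine no_disjoint _ _ (key C).1 (key D).1 (key C).2 (key D).2 ?_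
  rw [Finset.disjoint_left]
  intro a ha hb
  obtain ⟨t, -, rfl⟩ := Finset.mem_image.1 ha
  obtain ⟨u, -, hu⟩ := Finset.mem_image.1 hb
  exact Set.disjoint_left.1 hdis ⟨t, rfl⟩ ⟨u, hu⟩

/-- **Negative answer to Q1.**  There is a non-separating signed digraph on five vertices in
which no two cycles are vertex-disjoint; so the statement asked about in Q1 is false. -/
theorem result :
    (∃ G : SignedDigraph 5, NonSeparating G ∧
      ∀ C D : Cycle G, ¬ Disjoint (Set.range C.v) (Set.range D.v)) ∧ ¬ Q1 := by
  have hG : NonSeparating (interactionGraph net) := ⟨net, rfl, not_separating⟩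
  refine ⟨⟨interactionGraph net, hG, cycles_meet⟩, ?_⟩
  intro h
  obtain ⟨C, D, -, -, hd⟩ := h 5 (by norm_num) _ hG
  exact cycles_meet C D hd

end Pool.Agent.Results.MP_8a6e71_co.NoDisjointPair
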